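import Pool.Agent.TMX.Stmts2

/-!
# Row A3 of squad TMX (problem MP_b61ad0_an)
-/

set_option autoImplicit false

namespace Pool.Agent.TMX.H62

open Finset
open Pool.Agent.Helper51_Max (I IsMax)
open Pool.Agent.Helper37_EM (var)

theorem core (N : ℝ) (hN : 0 ≤ N) (W V v : ℝ) (hW : W ≤ v) (h : W ≤ (N + 1) * (W - V)) :
    (N + 1) * V ≤ N * v := by
  have h1 := mul_le_mul_of_nonneg_left hW hN
  nlinarith

theorem exists_min (g : ℕ → ℝ) (a b : ℕ) (hab : a ≤ b) :
    ∃ w, a ≤ w ∧ w ≤ b ∧ ∀ i, a ≤ i → i ≤ b → g w ≤ g i := by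
  obtain ⟨w, hw, hmin⟩ := Finset.exists_min_image (Finset.Icc a b) g
    ⟨a, Finset.mem_Icc.2 ⟨le_rfl, hab⟩⟩
  rw [Finset.mem_Icc] at hw
  exact ⟨w, hw.1, hw.2, fun i h1 h2 => hmin i (Finset.mem_Icc.2 ⟨h1, h2⟩)⟩

/-- Row A3. -/
theorem a3 : A3 := by
  intro hR hS hV N g M hM i₀ p₁ y₁ p₂ y₂ p₃ h1 h2 h3 h4 h5 h6 h7 h8
  obtain ⟨-, R2, R3, R4, -⟩ := hR N g M hM
  obtain ⟨S1, -, S3⟩ := hS N g M hM
  obtain ⟨-, V3⟩ := hV N g
  have hn : (0 : ℝ) ≤ (N : ℝ) := Nat.cast_nonneg N
  have hn1 : (0 : ℝ) ≤ (N : ℝ) + 1 := by linarith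
  have hsum := S3 p₁ p₂ p₃ (by omega) (by omega) h5
  have g0 := hM.nonneg 0
  have gN := hM.nonneg N
  have gp1 := hM.nonneg p₁
  have gp2 := hM.nonneg p₂
  have gp3 := hM.nonneg p₃
  have gy1 := hM.nonneg y₁
  have gy2 := hM.nonneg y₂
  have l0 := mul_nonneg hn1 (sub_nonneg.2
    (Pool.Agent.Helper37_EM.g_le hM (show 0 ≤ N by omega)))
  have lN := mul_nonneg hn1 (sub_nonneg.2
    (Pool.Agent.Helper37_EM.g_le hM (show N ≤ N by omega)))
  have ly1' := Pool.Agent.Helper37_EM.g_le hM (show y₁ ≤ N by omega)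
  have ly2' := Pool.Agent.Helper37_EM.g_le hM (show y₂ ≤ N by omega)
  have ly1 := mul_nonneg hn1 (sub_nonneg.2 ly1')
  have ly2 := mul_nonneg hn1 (sub_nonneg.2 ly2')
  have Sy1 := S1 y₁ (by omega)
  have Sy2 := S1 y₂ (by omega)
  have SN := S1 N le_rfl
  rcases le_total i₀ p₂ with hi | hi
  · apply core (N : ℝ) hn (2 * (g p₁ - g i₀ + g p₂ - g y₂ + g p₃) - g 0 - g N) _ _
      (V3 0 p₁ i₀ p₂ y₂ p₃ N (by omega) (by omega) hi (by omega) (by omega) h5 le_rfl)
    rw [h8]
    linarith
  · rcases le_total i₀ p₃ with hj | hj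
    · apply core (N : ℝ) hn (2 * (g p₁ - g y₁ + g p₂ - g i₀ + g p₃) - g 0 - g N) _ _
        (V3 0 p₁ y₁ p₂ i₀ p₃ N (by omega) (by omega) (by omega) hi hj h5 le_rfl)
      rw [h8]
      linarith
    · obtain ⟨α, -, hα, mα⟩ := exists_min g 0 p₁ (by omega)
      obtain ⟨w₁, hw1, hw1', m1⟩ := exists_min g p₁ p₂ (by omega)
      obtain ⟨w₂, hw2, hw2', m2⟩ := exists_min g p₂ p₃ (by omega)
      have e1 : g w₁ ≤ g y₁ := m1 y₁ (by omega) (by omega)
      have e2 : g w₂ ≤ g y₂ := m2 y₂ (by omega) (by omega)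
      have u1 := hM.nonneg w₁
      have u2 := hM.nonneg w₂
      have ga := hM.nonneg α
      have k1 : 0 ≤ ((N : ℝ) + 1) * (M y₁ - g w₁) := mul_nonneg hn1 (by linarith)
      have k2 : 0 ≤ ((N : ℝ) + 1) * (M y₂ - g w₂) := mul_nonneg hn1 (by linarith)
      apply core (N : ℝ) hn (2 * (g p₁ - g w₁ + g p₂ - g w₂ + g p₃) - g α - g i₀) _ _
        (V3 α p₁ w₁ p₂ w₂ p₃ i₀ hα hw1 hw1' hw2 hw2' hj h7)
      rw [h8]
      rcases le_or_gt (g α) (g w₁) with c1 | c1
      · rcases le_or_gt (g α) (g w₂) with c2 | c2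
        · have r := R4 0 p₁ p₂ p₃ (g α) (by omega) (by omega) (by omega) h5 (by
            intro i hi3
            rcases le_total i p₁ with q1 | q1
            · exact mα i (by omega) q1
            · rcases le_total i p₂ with q2 | q2
              · exact c1.trans (m1 i q1 q2)
              · exact c2.trans (m2 i q2 hi3))
          linarith
        · have r := R3 0 p₁ p₂ (g α) (by omega) (by omega) (by omega) (by
            intro i hi2
            rcases le_total i p₁ with q1 | q1
            · exact mα i (by omega) q1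
            · exact c1.trans (m1 i q1 hi2))
          have r' := R2 y₂ p₃ (g w₂) (by omega) h5 (by
            intro i hi3
            rcases le_total i p₁ with q1 | q1
            · exact c2.le.trans (mα i (by omega) q1)
            · rcases le_total i p₂ with q2 | q2
              · exact (c2.le.trans c1).trans (m1 i q1 q2)
              · exact m2 i q2 hi3)
          linarith
      · have ra := R2 0 p₁ (g α) (by omega) (by omega) (by
          intro i hi1
          exact mα i (by omega) hi1)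
        rcases le_or_gt (g w₁) (g w₂) with c2 | c2
        · have r := R3 y₁ p₂ p₃ (g w₁) (by omega) (by omega) h5 (by
            intro i hi3
            rcases le_total i p₁ with q1 | q1
            · exact c1.le.trans (mα i (by omega) q1)
            · rcases le_total i p₂ with q2 | q2
              · exact m1 i q1 q2
              · exact c2.trans (m2 i q2 hi3))
          have z2 : g w₁ ≤ g p₂ := m1 p₂ (by omega) le_rfl
          have z3 : g w₂ ≤ g p₃ := m2 p₃ (by omega) le_rfl
          linarith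
        · have r := R2 y₁ p₂ (g w₁) (by omega) (by omega) (by
            intro i hi2
            rcases le_total i p₁ with q1 | q1
            · exact c1.le.trans (mα i (by omega) q1)
            · exact m1 i q1 hi2)
          have r' := R2 y₂ p₃ (g w₂) (by omega) h5 (by
            intro i hi3
            rcases le_total i p₁ with q1 | q1
            · exact (c2.le.trans c1.le).trans (mα i (by omega) q1)
            · rcases le_total i p₂ with q2 | q2
              · exact c2.le.trans (m1 i q1 q2)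
              · exact m2 i q2 hi3)
          linarith

end Pool.Agent.TMX.H62
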